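import Pool.Agent.W659.SA.Defs

/-! SA-TRK: transfer of solvability from fields of large characteristic to `ℂ`. -/

set_option autoImplicit false

namespace Pool.Agent.W578.SA.TRK

open MvPolynomial NumberField Pool.Agent.W659.SA

attribute [local instance] MvPolynomial.algebraMvPolynomial

theorem main : Pool.Agent.W659.SA.S_TRK := by
  classical
  intro K _ _ ι _ I h σ
  have hinj : Function.Injective (algebraMap (MvPolynomial ι (𝓞 K)) (MvPolynomial ι K)) := by
    have h4 : (algebraMap (MvPolynomial ι (𝓞 K)) (MvPolynomial ι K)) =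
        MvPolynomial.map (algebraMap (𝓞 K) K) := rfl
    rw [h4]
    exact MvPolynomial.map_injective _ (FaithfulSMul.algebraMap_injective (𝓞 K) K)
  set J : Ideal (MvPolynomial ι K) :=
    I.map (algebraMap (MvPolynomial ι (𝓞 K)) (MvPolynomial ι K)) with hJ
  have hJtop : J ≠ ⊤ := by
    intro htop
    have h1 : (1 : MvPolynomial ι K) ∈ J := by
      rw [htop]
      trivial
    rw [hJ, IsLocalization.mem_map_algebraMap_iff
      (Submonoid.map C (nonZeroDivisors (𝓞 K))) (MvPolynomial ι K)] at h1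
    obtain ⟨⟨a, s⟩, hs⟩ := h1
    obtain ⟨N, hN, hNs⟩ := Submonoid.mem_map.1 s.2
    have hN0 : N ≠ 0 := nonZeroDivisors.ne_zero hN
    have h2 : (a : MvPolynomial ι (𝓞 K)) = C N := by
      apply hinj
      rw [one_mul] at hs
      rw [← hs]
      congr 1
      exact hNs.symm
    set n : ℕ := Ideal.absNorm (Ideal.span {N}) with hn
    have hn0 : n ≠ 0 := by
      rw [hn]
      intro h0
      rw [Ideal.absNorm_eq_zero_iff, Ideal.span_singleton_eq_bot] at h0
      exact hN0 h0
    have hdvd : N ∣ (n : 𝓞 K) := by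
      rw [← Ideal.mem_span_singleton]
      exact Ideal.absNorm_mem _
    obtain ⟨p, hp, hNp, k, hk, hc, φ, x, hx⟩ := h (n + 1)
    have h3 := hx _ a.2
    rw [h2, eval₂_C] at h3
    have h4 : ((n : ℕ) : k) = 0 := by
      obtain ⟨c, hc'⟩ := hdvd
      have : φ (n : 𝓞 K) = φ N * φ c := by rw [hc', map_mul]
      rw [map_natCast, h3, zero_mul] at this
      exact this
    rw [CharP.cast_eq_zero_iff k p] at h4
    have h5 := Nat.le_of_dvd (Nat.pos_of_ne_zero hn0) h4
    omega
  obtain ⟨m, hm, hJm⟩ := J.exists_le_maximal hJtop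
  letI : Field (MvPolynomial ι K ⧸ m) := Ideal.Quotient.field m
  haveI : Module.Finite K (MvPolynomial ι K ⧸ m) := finite_of_finite_type_of_isJacobsonRing _ _
  haveI : Algebra.IsAlgebraic K (MvPolynomial ι K ⧸ m) := Algebra.IsAlgebraic.of_finite _ _
  letI : Algebra K ℂ := σ.toAlgebra
  let e : (MvPolynomial ι K ⧸ m) →ₐ[K] ℂ := IsAlgClosed.lift
  refine ⟨fun i => e (Ideal.Quotient.mk m (X i)), fun f hf => ?_⟩
  have h1 : algebraMap (MvPolynomial ι (𝓞 K)) (MvPolynomial ι K) f ∈ m :=
    hJm (Ideal.mem_map_of_mem _ hf)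
  have h2 : (eval₂Hom (toC σ) (fun i => e (Ideal.Quotient.mk m (X i)))) =
      ((e : (MvPolynomial ι K ⧸ m) →+* ℂ).comp (Ideal.Quotient.mk m)).comp
        (algebraMap (MvPolynomial ι (𝓞 K)) (MvPolynomial ι K)) := by
    have h4 : (algebraMap (MvPolynomial ι (𝓞 K)) (MvPolynomial ι K)) =
        MvPolynomial.map (algebraMap (𝓞 K) K) := rfl
    apply MvPolynomial.ringHom_ext
    · intro z
      rw [h4]
      simp only [eval₂Hom_C, RingHom.comp_apply, map_C]
      have h5 : Ideal.Quotient.mk m (C (algebraMap (𝓞 K) K z)) =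
          algebraMap K (MvPolynomial ι K ⧸ m) (algebraMap (𝓞 K) K z) := rfl
      rw [h5]
      show toC σ z = e (algebraMap K (MvPolynomial ι K ⧸ m) (algebraMap (𝓞 K) K z))
      rw [e.commutes]
      rfl
    · intro i
      rw [h4]
      simp only [eval₂Hom_X', RingHom.comp_apply, map_X]
      rfl
  have h3 : eval₂ (toC σ) (fun i => e (Ideal.Quotient.mk m (X i))) f =
      (eval₂Hom (toC σ) (fun i => e (Ideal.Quotient.mk m (X i)))) f := rfl
  rw [h3, h2]
  show e (Ideal.Quotient.mk m (algebraMap (MvPolynomial ι (𝓞 K)) (MvPolynomial ι K) f)) = 0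
  rw [Ideal.Quotient.eq_zero_iff_mem.2 h1, map_zero]

end Pool.Agent.W578.SA.TRK
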